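import Pool.Agent.MWLE.StmtsA

/-!
# Row RGC of block MWLE: core of the comparison with the twin
-/

set_option autoImplicit false

namespace Pool.Agent.MWLE.H19

open Pool.Agent.Helper14_MV Pool.Agent.Helper2_MV Pool.Agent.MWLE
open Pool.Agent.MWK (pre Gw)
open Pool.Agent.MWF (Ap gaml dbl)
open Pool.Agent.MWGN (nn Gz E0 P0 A0 Tau gh)

theorem mem_dbl {c : ℕ} {l : List ℕ} : c ∈ dbl l → c ∈ l := by
  intro h
  unfold dbl at h
  obtain ⟨a, ha, hc⟩ := List.mem_flatMap.mp h
  simp only [List.mem_cons, List.not_mem_nil, or_false, or_self] at hc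
  rw [hc]
  exact ha

theorem dbl_two {c : ℕ} : ∀ {l : List ℕ}, c ∈ l → 2 ≤ (dbl l).count c
  | [], h => absurd h List.not_mem_nil
  | a :: l, h => by
    have e1 : dbl (a :: l) = a :: a :: dbl l := rfl
    rw [e1]
    rcases List.mem_cons.mp h with h | h
    · subst h
      rw [List.count_cons_self, List.count_cons_self]
      omega
    · have ih := dbl_two h
      have e2 : (dbl l).count c ≤ (a :: a :: dbl l).count c :=
        List.Sublist.count_le c (List.Sublist.cons _ (List.sublist_cons_self _ _))
      omega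

theorem rgc (h1 : DdcStmt) (h2 : InsStmt) : RgcStmt := by
  intro β hG hF P G Q T z hA hP hz hc
  by_cases hG0 : G = []
  · subst hG0
    exact RR.refl _
  have ha0 := hA hG0
  obtain ⟨T1, T2, hT⟩ := List.append_of_mem hz
  obtain ⟨-, d2, -⟩ := h1 β hG G [] P (z :: (Q ++ T))
  obtain ⟨-, d2', -⟩ := h1 β hG G [] P (z :: (dbl G ++ (Q ++ T)))
  have hcz : 2 ≤ (P ++ z :: (dbl G ++ (Q ++ T))).count z := by
    rw [hT]
    simp only [List.count_append, List.count_cons_self]
    omega
  -- (i)
  have s1 : RR β (P ++ z :: (dbl G ++ (Q ++ T))) (P ++ (dbl G ++ z :: (dbl G ++ (Q ++ T)))) := by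
    refine h2 β hG hF (dbl G) P (z :: (dbl G ++ (Q ++ T))) ?_
    intro c hcX
    obtain ⟨P1, P2, hPP⟩ := hP c (mem_dbl hcX)
    obtain ⟨X1, X2, hX⟩ := List.append_of_mem hcX
    refine ⟨P1 ++ [c], P2, z :: X1, X2 ++ (Q ++ T), ?_, ?_, ?_, ?_⟩
    · rw [hPP]
      simp only [List.append_assoc, List.cons_append, List.nil_append]
    · exact List.mem_append_right _ (List.mem_singleton.mpr rfl)
    · rw [hX]
      simp only [List.append_assoc, List.cons_append]
    · intro e he
      rcases List.mem_append.mp he with he | he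
      · apply hc e
        rw [hPP]
        exact List.mem_append_right _ (List.mem_cons_of_mem _ (List.mem_cons_of_mem _ he))
      · rcases List.mem_cons.mp he with he | he
        · rw [he]
          exact hcz
        · have e1 : e ∈ dbl G := by
            rw [hX]
            exact List.mem_append_left _ he
          have e2 := dbl_two (mem_dbl e1)
          have e3 : (dbl G).count e ≤ (P ++ z :: (dbl G ++ (Q ++ T))).count e := by
            rw [List.count_append, List.count_cons, List.count_append]
            omega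
          omega
  -- (ii)
  have s2 : RR β (P ++ (dbl G ++ (dbl G ++ z :: (Q ++ T))))
      (P ++ (dbl G ++ (dbl G ++ z :: (dbl G ++ (Q ++ T))))) := by
    have e1 : RR β [0, 0, 1, 2, 1] [0, 0, 1, 0, 2, 1] := ha0
    have e2 := e1.sub (fun i => if i = 0 then dbl G else if i = 1 then [z] else Q ++ T1)
    have e3 := (RR.refl P).append (e2.append (RR.refl T2))
    rw [hT]
    simpa [List.append_assoc] using e3
  exact β.trans (β.trans (β.trans s1 d2') s2.symm) d2.symm

end Pool.Agent.MWLE.H19
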